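import Pool.Agent.Lib.MP_c82047_co18.Seven.OSR
import Pool.Agent.Lib.MP_c82047_co18.Seven.C1
import Pool.Agent.Lib.MP_c82047_co18.Seven.Final

/-!
# The density bound 1/18 for linear systems without four triples on seven points
-/

namespace Pool.Agent.Lib.MP_c82047_co93

open Finset Pool.Agent.Lib.MP_c82047_co18.Seven

section

variable {V : Type} [Fintype V]

/-- A symmetric kernel with values at most `1/2` satisfies `4 (che - tri) ≤ n * ∑ W`. -/
theorem four_che_sub_tri (W : V → V → ℝ) (h0 : ∀ x y, 0 ≤ W x y) (hh : ∀ x y, W x y ≤ 1 / 2)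
    (hs : ∀ x y, W x y = W y x) :
    4 * che W - 4 * tri W ≤ (Fintype.card V : ℝ) * ∑ x, ∑ y, W x y := by
  have key : 0 ≤ ∑ x, ∑ y, ∑ z, W x y * (1 - 2 * W x z) * (1 - 2 * W y z) := by
    refine sum_nonneg fun x _ => sum_nonneg fun y _ => sum_nonneg fun z _ => ?_
    have h1 := h0 x y
    have h2 := hh x z
    have h3 := hh y z
    have h4 : 0 ≤ 1 - 2 * W x z := by linarith
    have h5 : 0 ≤ 1 - 2 * W y z := by linarith
    positivity
  have hc1 : ∑ x, ∑ y, ∑ z, W x y * W x z = che W := by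
    unfold che
    refine sum_congr rfl fun x _ => ?_
    rw [sq, sum_mul_sum]
  have hc2 : ∑ x, ∑ y, ∑ z, W x y * W y z = che W := by
    rw [sum_comm, ← hc1]
    refine sum_congr rfl fun x _ => sum_congr rfl fun y _ => sum_congr rfl fun z _ => ?_
    rw [hs y x]
  have q1 : ∑ x : V, ∑ y : V, ∑ _z : V, W x y = (Fintype.card V : ℝ) * ∑ x, ∑ y, W x y := by
    simp only [sum_const, card_univ, nsmul_eq_mul, mul_sum]
  have e : ∑ x, ∑ y, ∑ z, W x y * (1 - 2 * W x z) * (1 - 2 * W y z)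
      = ∑ x : V, ∑ y : V, ∑ _z : V, W x y - 2 * ∑ x, ∑ y, ∑ z, W x y * W x z
        - 2 * ∑ x, ∑ y, ∑ z, W x y * W y z + 4 * tri W := by
    unfold tri
    simp only [mul_sum, ← sum_sub_distrib, ← sum_add_distrib]
    refine sum_congr rfl fun x _ => sum_congr rfl fun y _ => sum_congr rfl fun z _ => ?_
    ring
  rw [e, q1, hc1, hc2] at key
  linarith

theorem sq_sum_le_che (W : V → V → ℝ) :
    (∑ x, ∑ y, W x y) ^ 2 ≤ (Fintype.card V : ℝ) * che W := by
  unfold che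
  have := sq_sum_le_card_mul_sum_sq (s := (univ : Finset V)) (f := fun x => ∑ y, W x y)
  rwa [card_univ] at this

end

/-- linear systems without four triples on at most seven points -/
theorem linear_density (ε : ℝ) (hε : 0 < ε) : ∃ n₀ : ℕ, ∀ n : ℕ, n₀ ≤ n →
    ∀ H : Finset (Finset (Fin n)), Lin H → Free74 H →
      (H.card : ℝ) ≤ (1 / 18 + ε) * (n : ℝ) ^ 2 := by
  -- the parameter
  set η : ℝ := ε / 20 with hη
  have hη0 : 0 < η := by positivity
  obtain ⟨K, hosr⟩ := osr η hη0 1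
  obtain ⟨n₁, hc1⟩ := c1 (η / ((K : ℝ) + 1)) η (by positivity) hη0
  obtain ⟨n₂, hn₂⟩ := exists_nat_gt (4 / ε)
  refine ⟨max n₁ (max n₂ 1), ?_⟩
  intro n hn H hlin hfree
  have hn1 : n₁ ≤ n := le_trans (le_max_left _ _) hn
  have hn2 : n₂ ≤ n := le_trans (le_trans (le_max_left _ _) (le_max_right _ _)) hn
  have hn3 : 1 ≤ n := le_trans (le_trans (le_max_right _ _) (le_max_right _ _)) hn
  have hN : (1 : ℝ) ≤ n := by exact_mod_cast hn3
  have hNε : 4 < ε * n := by
    have h1 : 4 / ε < (n : ℝ) := lt_of_lt_of_le hn₂ (by exact_mod_cast hn2)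
    rw [div_lt_iff₀ hε] at h1
    linarith
  have hcV : (Fintype.card (Fin n) : ℝ) = n := by simp
  obtain ⟨c, hcK, -, hreg⟩ := hosr (α := Fin n) (β := Fin n) univ univ
    (fun s t => adj H s t) (fun s t => adj_bounds' _ _ _) (fun _ => 0)
    (fun _ => Nat.one_pos)
  have hcardα : ((univ : Finset (Fin n)).card : ℝ) = n := by simp
  rw [hcardα] at hreg
  set W : Fin n → Fin n → ℝ := stepf c (adj H) with hWdef
  have hW : ∀ s t, 0 ≤ W s t ∧ W s t ≤ 1 := fun s t => stepf_bounds c _ (adj_bounds' H) s t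
  have hWs : ∀ s t, W s t = W t s := stepf_symm c _ (adj_comm H)
  have hcut : ∀ f g : Fin n → ℝ, (∀ t, 0 ≤ f t ∧ f t ≤ 1) → (∀ t, 0 ≤ g t ∧ g t ≤ 1) →
      |∑ s, ∑ t, f s * (adj H s t - W s t) * g t| ≤ 2 * (η * n * n) := by
    intro f g hf hg
    exact cut_close c (adj H) (adj_bounds' H) (adj_comm H) _ hreg f g hf hg
  have hE : ∑ x, ∑ y, max 0 (W x y - 1 / 2) ≤ 2 * η * (n : ℝ) ^ 2 := by
    have h1 := e4 c K hcK W (η / ((K : ℝ) + 1) * n) η (by positivity)
      hη0.le (fun s t => (hW s t).2) (by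
        intro x y hx hy
        have h2 := hc1 n hn1 H hlin hfree _ _ hx hy
        have hxp : 0 < ((univ.filter (fun u => c u = c x)).card : ℝ) := by
          exact_mod_cast card_pos.2 ⟨x, by simp⟩
        have hyp : 0 < ((univ.filter (fun u => c u = c y)).card : ℝ) := by
          exact_mod_cast card_pos.2 ⟨y, by simp⟩
        show stepf c (adj H) x y ≤ _
        rw [stepf_eq, div_le_iff₀ (mul_pos hxp hyp)]
        exact h2)
    rw [hcV] at h1
    have hK : (K : ℝ) * (η / ((K : ℝ) + 1) * n) ≤ η * n := by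
      have hKK : (K : ℝ) * (η / ((K : ℝ) + 1)) ≤ η := by
        rw [mul_div_assoc', div_le_iff₀ (by positivity)]
        nlinarith [(Nat.cast_nonneg K : (0 : ℝ) ≤ K)]
      nlinarith
    nlinarith
  -- the truncated kernel
  set W' : Fin n → Fin n → ℝ := fun x y => min (W x y) (1 / 2) with hW'def
  have hW' : ∀ s t, 0 ≤ W' s t ∧ W' s t ≤ 1 / 2 := fun s t =>
    ⟨le_min (hW s t).1 (by norm_num), min_le_right _ _⟩
  have hWW : ∀ s t, |W s t - W' s t| = max 0 (W s t - 1 / 2) := by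
    intro s t
    simp only [hW'def]
    rcases le_total (W s t) (1 / 2) with h | h
    · rw [min_eq_left h, sub_self, abs_zero, max_eq_left (by linarith)]
    · rw [min_eq_right h, abs_of_nonneg (by linarith), max_eq_right (by linarith)]
  have hL : ∑ x, ∑ y, |W x y - W' x y| ≤ 2 * η * (n : ℝ) ^ 2 := by
    simp only [hWW]
    exact hE
  have b1 := e1 H hlin hfree W W' hW (fun s t => ⟨(hW' s t).1, by linarith [(hW' s t).2]⟩) hWs
    _ _ hcut hL
  have b2 := four_che_sub_tri W' (fun s t => (hW' s t).1) (fun s t => (hW' s t).2) (by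
    intro x y
    simp only [hW'def, hWs x y])
  have b3 := sq_sum_le_che W'
  rw [hcV] at b1 b2 b3
  have hsumW : ∑ x, ∑ y, W x y = 6 * (H.card : ℝ) := by
    rw [← sum_adj H hlin]
    exact stepf_sum c (adj H)
  have hsumW' : ∑ x, ∑ y, W x y ≤ ∑ x, ∑ y, W' x y + 2 * η * (n : ℝ) ^ 2 := by
    have : ∑ x, ∑ y, W x y = ∑ x, ∑ y, W' x y + ∑ x, ∑ y, (W x y - W' x y) := by
      simp only [← sum_add_distrib]
      refine sum_congr rfl fun x _ => sum_congr rfl fun y _ => ?_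
      ring
    rw [this]
    have h2 : ∑ x, ∑ y, (W x y - W' x y) ≤ ∑ x, ∑ y, |W x y - W' x y| :=
      sum_le_sum fun x _ => sum_le_sum fun y _ => le_abs_self _
    linarith
  set s : ℝ := ∑ x, ∑ y, W' x y with hs
  have hs0 : 0 ≤ s := sum_nonneg fun x _ => sum_nonneg fun y _ => (hW' x y).1
  -- `3 che ≤ n s + 4 n² + 56 η n³`
  have b4 : 3 * che W' ≤ n * s + 4 * (n : ℝ) ^ 2 + 56 * η * (n : ℝ) ^ 3 := by
    nlinarith
  have b5 : 3 * s ^ 2 ≤ (n : ℝ) ^ 2 * s + 4 * (n : ℝ) ^ 3 + 56 * η * (n : ℝ) ^ 4 := by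
    nlinarith
  have hn0 : (0 : ℝ) < n := by linarith
  -- conclude
  have hfin : s ≤ (1 / 3 + 58 * η + ε) * (n : ℝ) ^ 2 := by
    by_contra hcon
    push Not at hcon
    have hεn : 4 * (n : ℝ) ^ 3 < ε * (n : ℝ) ^ 4 := by
      have : 4 * (n : ℝ) ^ 3 < (ε * n) * (n : ℝ) ^ 3 :=
        mul_lt_mul_of_pos_right hNε (by positivity)
      linarith
    have h1 : (n : ℝ) ^ 2 * (1 / 3) ≤ s := by nlinarith [sq_nonneg (n : ℝ)]
    have h2 : (58 * η + ε) * (n : ℝ) ^ 2 ≤ s - (1 / 3) * (n : ℝ) ^ 2 := by linarith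
    have h3 : (3 * (58 * η + ε) * (n : ℝ) ^ 2) * ((n : ℝ) ^ 2 * (1 / 3))
        ≤ (3 * (s - (1 / 3) * (n : ℝ) ^ 2)) * s := by
      have hpos : 0 ≤ (58 * η + ε) * (n : ℝ) ^ 2 := by positivity
      refine mul_le_mul (by linarith) h1 (by positivity) (by linarith)
    nlinarith [sq_nonneg ((n : ℝ) ^ 2)]
  have : 6 * (H.card : ℝ) ≤ (1 / 3 + 60 * η + ε) * (n : ℝ) ^ 2 := by
    rw [← hsumW]
    nlinarith
  have h60 : 60 * η = 3 * ε := by rw [hη]; ring
  rw [h60] at this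
  nlinarith [sq_nonneg (n : ℝ)]

end Pool.Agent.Lib.MP_c82047_co93
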