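import Pool.Agent.Lib.MP_c82047_co18.Seven.Defs

/-!
# Removing the pairs of triples with two common points
-/

namespace Pool.Agent.Lib.MP_c82047_co93

open Finset Pool.Agent.Lib.MP_c82047_co18.Seven

variable {V : Type*} [DecidableEq V]

/-- the triples of `H` other than `e` which share two points with `e` -/
def nb (H : Finset (Finset V)) (e : Finset V) : Finset (Finset V) :=
  H.filter (fun f => f ≠ e ∧ 2 ≤ (e ∩ f).card)

/-- the triples of `H` which share two points with another triple of `H` -/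
def bad (H : Finset (Finset V)) : Finset (Finset V) :=
  H.filter (fun e => (nb H e).Nonempty)

theorem mem_nb {H : Finset (Finset V)} {e f : Finset V} :
    f ∈ nb H e ↔ f ∈ H ∧ f ≠ e ∧ 2 ≤ (e ∩ f).card := by
  unfold nb
  rw [mem_filter]

theorem nb_symm {H : Finset (Finset V)} {e f : Finset V} (he : e ∈ H) (h : f ∈ nb H e) :
    e ∈ nb H f := by
  rw [mem_nb] at h ⊢
  exact ⟨he, h.2.1.symm, by rw [inter_comm]; exact h.2.2⟩

theorem card_union_of_nb {H : Finset (Finset V)} (h3 : ∀ e ∈ H, e.card = 3) {e f : Finset V}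
    (he : e ∈ H) (h : f ∈ nb H e) : (e ∪ f).card ≤ 4 := by
  rw [mem_nb] at h
  have h1 := card_union_add_card_inter e f
  have h2 := h3 e he
  have h4 := h3 f h.1
  omega

theorem four_le {H : Finset (Finset V)} (hf : Free74 H) {a b c d : Finset V} (ha : a ∈ H)
    (hb : b ∈ H) (hc : c ∈ H) (hd : d ∈ H) (hab : a ≠ b) (hac : a ≠ c) (had : a ≠ d) (hbc : b ≠ c)
    (hbd : b ≠ d) (hcd : c ≠ d) (S : Finset V) (hS : S.card ≤ 7) (haS : a ⊆ S) (hbS : b ⊆ S)
    (hcS : c ⊆ S) (hdS : d ⊆ S) : False := by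
  have h1 := hf S hS
  have h2 : ({a, b, c, d} : Finset (Finset V)) ⊆ H.filter (fun h => h ⊆ S) := by
    intro x hx
    simp only [mem_insert, mem_singleton] at hx
    rw [mem_filter]
    rcases hx with rfl | rfl | rfl | rfl
    · exact ⟨ha, haS⟩
    · exact ⟨hb, hbS⟩
    · exact ⟨hc, hcS⟩
    · exact ⟨hd, hdS⟩
  have h3 := card_le_card h2
  have h4 : ({a, b, c, d} : Finset (Finset V)).card = 4 := by
    rw [card_insert_of_notMem, card_insert_of_notMem, card_insert_of_notMem, card_singleton]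
    · simpa using hcd
    · simp [hbc, hbd]
    · simp [hab, hac, had]
  omega

theorem card_nb_le {H : Finset (Finset V)} (h3 : ∀ e ∈ H, e.card = 3) (hf : Free74 H)
    {e : Finset V} (he : e ∈ H) : (nb H e).card ≤ 2 := by
  by_contra hcon
  push Not at hcon
  obtain ⟨a, b, c, ha, hb, hc, hab, hac, hbc⟩ := two_lt_card_iff.1 hcon
  have key : ∀ f, f ∈ nb H e → (f \ e).card ≤ 1 := by
    intro f hf'
    rw [mem_nb] at hf'
    have h1 := card_sdiff_add_card_inter f e
    have h2 := h3 f hf'.1
    have h4 := hf'.2.2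
    rw [inter_comm] at h4
    omega
  have hS : (e ∪ (a \ e) ∪ (b \ e) ∪ (c \ e)).card ≤ 7 := by
    have h1 := card_union_le (e ∪ (a \ e) ∪ (b \ e)) (c \ e)
    have h2 := card_union_le (e ∪ (a \ e)) (b \ e)
    have h4 := card_union_le e (a \ e)
    have h5 := key a ha
    have h6 := key b hb
    have h7 := key c hc
    have h8 := h3 e he
    omega
  have sub : ∀ f : Finset V, f ⊆ e ∪ (f \ e) := by
    intro f x hx
    by_cases h : x ∈ e
    · exact mem_union_left _ h
    · exact mem_union_right _ (mem_sdiff.2 ⟨hx, h⟩)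
  rw [mem_nb] at ha hb hc
  refine four_le hf he ha.1 hb.1 hc.1 ha.2.1.symm hb.2.1.symm hc.2.1.symm hab hac hbc _ hS
    ?_ ?_ ?_ ?_
  · intro x hx
    simp only [mem_union]
    tauto
  · intro x hx
    have := sub a hx
    simp only [mem_union] at this ⊢
    tauto
  · intro x hx
    have := sub b hx
    simp only [mem_union] at this ⊢
    tauto
  · intro x hx
    have := sub c hx
    simp only [mem_union] at this ⊢
    tauto

theorem card_bad_at {H : Finset (Finset V)} (h3 : ∀ e ∈ H, e.card = 3) (hf : Free74 H) (v : V) :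
    ((bad H).filter (fun e => v ∈ e)).card ≤ 6 := by
  rcases ((bad H).filter (fun e => v ∈ e)).eq_empty_or_nonempty with h | ⟨e, he⟩
  · rw [h]; simp
  rw [mem_filter, bad, mem_filter] at he
  obtain ⟨⟨heH, e', he'⟩, hve⟩ := he
  have he'H := (mem_nb.1 he').1
  have hsub : (bad H).filter (fun e => v ∈ e) ⊆ ({e, e'} ∪ nb H e) ∪ nb H e' := by
    intro f hf'
    rw [mem_filter, bad, mem_filter] at hf'
    obtain ⟨⟨hfH, f', hf''⟩, hvf⟩ := hf'
    have hf'H := (mem_nb.1 hf'').1
    by_contra hcon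
    simp only [mem_union, mem_insert, mem_singleton, not_or] at hcon
    obtain ⟨⟨⟨h1, h2⟩, h4⟩, h5⟩ := hcon
    have h6 : f' ≠ e := by
      rintro rfl
      exact h4 (nb_symm hfH hf'')
    have h7 : f' ≠ e' := by
      rintro rfl
      exact h5 (nb_symm hfH hf'')
    have hc1 := card_union_of_nb h3 heH he'
    have hc2 := card_union_of_nb h3 hfH hf''
    have hS : ((e ∪ e') ∪ (f ∪ f')).card ≤ 7 := by
      have a1 := card_union_add_card_inter (e ∪ e') (f ∪ f')
      have a2 : 0 < ((e ∪ e') ∩ (f ∪ f')).card :=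
        card_pos.2 ⟨v, mem_inter.2 ⟨mem_union_left _ hve, mem_union_left _ hvf⟩⟩
      omega
    refine four_le hf heH he'H hfH hf'H (mem_nb.1 he').2.1.symm (Ne.symm h1) (Ne.symm h6)
      (Ne.symm h2) (Ne.symm h7) (mem_nb.1 hf'').2.1.symm _ hS ?_ ?_ ?_ ?_
    · exact fun x hx => mem_union_left _ (mem_union_left _ hx)
    · exact fun x hx => mem_union_left _ (mem_union_right _ hx)
    · exact fun x hx => mem_union_right _ (mem_union_left _ hx)
    · exact fun x hx => mem_union_right _ (mem_union_right _ hx)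
  have h1 := card_le_card hsub
  have h2 := card_union_le ({e, e'} ∪ nb H e) (nb H e')
  have h4 := card_union_le ({e, e'} : Finset (Finset V)) (nb H e)
  have h5 : ({e, e'} : Finset (Finset V)).card ≤ 2 := card_le_two
  have h6 := card_nb_le h3 hf heH
  have h7 := card_nb_le h3 hf he'H
  omega

theorem card_bad_le [Fintype V] {H : Finset (Finset V)} (h3 : ∀ e ∈ H, e.card = 3)
    (hf : Free74 H) : (bad H).card ≤ 2 * Fintype.card V := by
  have h1 : ∑ v : V, ((bad H).filter (fun e => v ∈ e)).card = ∑ e ∈ bad H, e.card := by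
    simp only [card_filter]
    rw [sum_comm]
    refine sum_congr rfl fun e _ => ?_
    rw [← card_filter]
    congr 1
    ext x
    simp
  have h2 : ∑ e ∈ bad H, e.card = 3 * (bad H).card := by
    have h : ∀ e ∈ bad H, e.card = 3 := fun e he => h3 e (mem_filter.1 he).1
    rw [sum_congr rfl h, sum_const, smul_eq_mul, mul_comm]
  have h4 : ∑ v : V, ((bad H).filter (fun e => v ∈ e)).card ≤ ∑ _v : V, 6 :=
    sum_le_sum fun v _ => card_bad_at h3 hf v
  simp only [sum_const, card_univ, smul_eq_mul] at h4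
  omega

theorem lin_sdiff {H : Finset (Finset V)} (h3 : ∀ e ∈ H, e.card = 3) : Lin (H \ bad H) := by
  refine ⟨fun h hh => h3 h (mem_sdiff.1 hh).1, fun h hh k hk hne => ?_⟩
  by_contra hcon
  push Not at hcon
  rw [mem_sdiff] at hh hk
  apply hh.2
  rw [bad, mem_filter]
  refine ⟨hh.1, k, ?_⟩
  rw [mem_nb]
  exact ⟨hk.1, hne.symm, hcon⟩

theorem free_sdiff {H : Finset (Finset V)} (hf : Free74 H) : Free74 (H \ bad H) := by
  intro S hS
  refine le_trans (card_le_card ?_) (hf S hS)
  exact filter_subset_filter _ sdiff_subset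

end Pool.Agent.Lib.MP_c82047_co93
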